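import Mathlib
import Pool.Agent.Y91.JP.Quad
import Pool.Agent.W528.Odd.Core2

/-!
# Lie algebras of symplectic operators in which the weak Hodge elements act irreducibly
-/

set_option linter.unusedSectionVars false

namespace Pool.Agent.Y131.MO

open Module LinearMap

noncomputable section

variable {K : Type} [Field K] {V : Type} [AddCommGroup V] [Module K V] [FiniteDimensional K V]

/-- The map `V → V*` given by a nondegenerate form. -/
def toD (ω : V →ₗ[K] V →ₗ[K] K) (hnd : ∀ u, (∀ v, ω v u = 0) → u = 0) : V ≃ₗ[K] Dual K V :=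
  LinearEquiv.ofInjectiveOfFinrankEq ω.flip
    ((injective_iff_map_eq_zero _).2 fun u hu => hnd u fun v => LinearMap.congr_fun hu v)
    (Subspace.dual_finrank_eq (K := K) (V := V)).symm

/-- The adjoint. -/
def adj (ω : V →ₗ[K] V →ₗ[K] K) (hnd : ∀ u, (∀ v, ω v u = 0) → u = 0) :
    End K V →ₗ[K] End K V where
  toFun a := (toD ω hnd).symm.toLinearMap ∘ₗ a.dualMap ∘ₗ (toD ω hnd).toLinearMap
  map_add' a b := by
    refine LinearMap.ext fun v => ?_
    simp only [LinearMap.comp_apply, LinearMap.add_apply, LinearEquiv.coe_coe]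
    rw [← map_add]
    congr 1
    refine LinearMap.ext fun w => ?_
    simp
  map_smul' c a := by
    refine LinearMap.ext fun v => ?_
    simp only [LinearMap.comp_apply, LinearMap.smul_apply, LinearEquiv.coe_coe, RingHom.id_apply]
    rw [← map_smul]
    congr 1
    refine LinearMap.ext fun w => ?_
    simp

variable {ω : V →ₗ[K] V →ₗ[K] K} (hnd : ∀ u, (∀ v, ω v u = 0) → u = 0)

theorem toD_apply (v w : V) : toD ω hnd v w = ω w v := rfl

theorem adj_spec (x : End K V) (v w : V) : ω (x v) w = ω v (adj ω hnd x w) := by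
  have h1 : toD ω hnd (adj ω hnd x w) v = (x.dualMap (toD ω hnd w)) v := by
    change toD ω hnd ((toD ω hnd).symm (x.dualMap (toD ω hnd w))) v = _
    rw [LinearEquiv.apply_symm_apply]
  rw [toD_apply, LinearMap.dualMap_apply, toD_apply] at h1
  exact h1.symm

theorem adj_unique {x y : End K V} (h : ∀ v w, ω (x v) w = ω v (y w)) : adj ω hnd x = y := by
  refine LinearMap.ext fun w => ?_
  rw [← sub_eq_zero]
  refine hnd _ fun v => ?_
  rw [map_sub, ← adj_spec, h, sub_self]

theorem adj_mul (a b : End K V) : adj ω hnd (a * b) = adj ω hnd b * adj ω hnd a := by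
  refine adj_unique hnd fun v w => ?_
  rw [Module.End.mul_apply, Module.End.mul_apply, adj_spec hnd, adj_spec hnd]

theorem adj_rk (a : End K V) : W548.Odd.rk (adj ω hnd a) = W548.Odd.rk a := by
  unfold W548.Odd.rk
  have h1 : finrank K (LinearMap.range a.dualMap) = finrank K (LinearMap.range a) :=
    LinearMap.finrank_range_dualMap_eq_finrank_range a
  rw [← h1]
  have h2 : LinearMap.range (adj ω hnd a) =
      (LinearMap.range a.dualMap).map (toD ω hnd).symm.toLinearMap := by
    apply le_antisymm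
    · rintro _ ⟨v, rfl⟩
      exact ⟨_, ⟨toD ω hnd v, rfl⟩, rfl⟩
    · rintro _ ⟨_, ⟨f, rfl⟩, rfl⟩
      refine ⟨(toD ω hnd).symm f, ?_⟩
      change (toD ω hnd).symm (a.dualMap (toD ω hnd ((toD ω hnd).symm f))) = _
      rw [LinearEquiv.apply_symm_apply]
      rfl
  rw [h2]
  exact (toD ω hnd).symm.finrank_map_eq _

theorem adj_trace (a : End K V) : trace K V (adj ω hnd a) = trace K V a := by
  have h1 : trace K V (adj ω hnd a) = trace K (Dual K V) a.dualMap := by
    change trace K V ((toD ω hnd).symm.toLinearMap ∘ₗ a.dualMap ∘ₗ (toD ω hnd).toLinearMap) = _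
    rw [← LinearMap.trace_conj' a.dualMap (toD ω hnd).symm]
    rfl
  rw [h1]
  exact LinearMap.trace_transpose' a

variable [CharZero K]

open Pool.Agent.W528.Odd (QP orth inf_orth sup_orth eq_zero_of_comm comm_orth)

variable {𝔮 : Submodule K (End K V)} (hndl : ∀ u, (∀ v, ω u v = 0) → u = 0)

include hndl in
/-- The Lie algebra is generated by its involutions. -/
theorem qp_gen [IsAlgClosed K] (hQ : QP ω 𝔮) (L : Submodule K (End K V))
    (hL : ∀ D ∈ 𝔮, D * D = 1 → D ∈ L) (hbr : ∀ y ∈ L, ∀ z ∈ L, y * z - z * y ∈ L) : 𝔮 ≤ L := by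
  classical
  -- the smallest Lie algebra that contains the involutions
  let S : Set (Submodule K (End K V)) := {M | (∀ D ∈ 𝔮, D * D = 1 → D ∈ M) ∧
    ∀ y ∈ M, ∀ z ∈ M, y * z - z * y ∈ M}
  obtain ⟨𝔨, h𝔨⟩ : ∃ 𝔨, 𝔨 = sInf S := ⟨_, rfl⟩
  have hle : ∀ M ∈ S, 𝔨 ≤ M := fun M hM => by rw [h𝔨]; exact sInf_le hM
  have hkq : 𝔨 ≤ 𝔮 := hle 𝔮 ⟨fun D hD _ => hD, hQ.br⟩
  have hkD : ∀ D ∈ 𝔮, D * D = 1 → D ∈ 𝔨 := by
    intro D hD hD2
    rw [h𝔨, Submodule.mem_sInf]
    exact fun M hM => hM.1 D hD hD2
  have hkbr : ∀ y ∈ 𝔨, ∀ z ∈ 𝔨, y * z - z * y ∈ 𝔨 := by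
    intro y hy z hz
    rw [h𝔨, Submodule.mem_sInf] at hy hz ⊢
    exact fun M hM => hM.2 y (hy M hM) z (hz M hM)
  refine le_trans ?_ (hle L ⟨hL, hbr⟩)
  -- half integral elements
  have hkX : ∀ X ∈ 𝔮, X * X = (1 / 4 : K) • 1 → X ∈ 𝔨 := by
    intro X hX hXX
    have h1 : (2 : K) • X ∈ 𝔨 := hkD _ (𝔮.smul_mem _ hX) (by
      rw [smul_mul_assoc, mul_smul_comm, hXX, smul_smul, smul_smul]
      norm_num)
    exact (Submodule.smul_mem_iff _ (two_ne_zero (α := K))).1 h1
  -- brackets with square-zero elements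
  have hnD : ∀ n ∈ 𝔮, n * n = 0 → ∀ D ∈ 𝔮, D * D = 1 → n * D - D * n ∈ 𝔨 := by
    intro n hn hn2 D hD hD2
    have hnDn : n * D * n ∈ 𝔮 := by
      have h1 := hQ.br n hn _ (hQ.br n hn D hD)
      have h2 : n * (n * D - D * n) - (n * D - D * n) * n = (-2 : K) • (n * D * n) := by
        have : n * (n * D - D * n) - (n * D - D * n) * n =
            (n * n) * D - (2 : K) • (n * D * n) + D * (n * n) := by
          rw [two_smul]
          noncomm_ring
        rw [this, hn2, zero_mul, mul_zero, add_zero, zero_sub, neg_smul]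
      rw [h2] at h1
      exact (Submodule.smul_mem_iff _ (by norm_num)).1 h1
    have key : ∀ s : K, s * s = 1 → D + s • (n * D - D * n) - n * D * n ∈ 𝔨 := by
      intro s hs
      apply hkD
      · exact 𝔮.sub_mem (𝔮.add_mem hD (𝔮.smul_mem _ (hQ.br n hn D hD))) hnDn
      · have h1 : D + s • (n * D - D * n) - n * D * n = (1 + s • n) * D * (1 - s • n) := by
          have : (1 + s • n) * D * (1 - s • n) =
              D + s • (n * D) - s • (D * n) - (s * s) • (n * D * n) := by
            rw [add_mul, one_mul, mul_sub, mul_one, smul_mul_assoc, mul_smul_comm, add_mul,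
              smul_mul_assoc, smul_add, smul_smul]
            abel
          rw [this, hs, one_smul, smul_sub]
          abel
        have h2 : (1 - s • n) * (1 + s • n) = 1 := by
          rw [sub_mul, one_mul, mul_add, mul_one, smul_mul_assoc, mul_smul_comm, hn2]
          simp
        have h3 : (1 + s • n) * (1 - s • n) = 1 := by
          rw [add_mul, one_mul, mul_sub, mul_one, smul_mul_assoc, mul_smul_comm, hn2]
          simp
        rw [h1]
        calc (1 + s • n) * D * (1 - s • n) * ((1 + s • n) * D * (1 - s • n)) =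
            (1 + s • n) * D * ((1 - s • n) * (1 + s • n)) * D * (1 - s • n) := by
              simp only [mul_assoc]
        _ = (1 + s • n) * (D * D) * (1 - s • n) := by rw [h2, mul_one]; simp only [mul_assoc]
        _ = 1 := by rw [hD2, mul_one, h3]
    have h1 := 𝔨.sub_mem (key 1 (one_mul 1)) (key (-1) (by norm_num))
    have h2 : D + (1 : K) • (n * D - D * n) - n * D * n -
        (D + (-1 : K) • (n * D - D * n) - n * D * n) = (2 : K) • (n * D - D * n) := by module
    rw [h2] at h1
    exact (Submodule.smul_mem_iff _ (two_ne_zero (α := K))).1 h1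
  have hid : ∀ x ∈ 𝔮, ∀ y ∈ 𝔨, x * y - y * x ∈ 𝔨 := by
    -- for a fixed `x` of a generating set
    have step : ∀ x : End K V, (∀ D ∈ 𝔮, D * D = 1 → x * D - D * x ∈ 𝔨) →
        ∀ y ∈ 𝔨, x * y - y * x ∈ 𝔨 := by
      intro x hx
      let M : Submodule K (End K V) :=
        { carrier := {y | y ∈ 𝔨 ∧ x * y - y * x ∈ 𝔨}
          zero_mem' := ⟨𝔨.zero_mem, by
            rw [mul_zero, zero_mul, sub_zero]
            exact 𝔨.zero_mem⟩
          add_mem' := fun {a b} ha hb => ⟨𝔨.add_mem ha.1 hb.1, by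
            have : x * (a + b) - (a + b) * x = (x * a - a * x) + (x * b - b * x) := by
              noncomm_ring
            rw [this]
            exact 𝔨.add_mem ha.2 hb.2⟩
          smul_mem' := fun c a ha => ⟨𝔨.smul_mem c ha.1, by
            rw [mul_smul_comm, smul_mul_assoc, ← smul_sub]
            exact 𝔨.smul_mem c ha.2⟩ }
      have hM : M ∈ S := by
        refine ⟨fun D hD hD2 => ⟨hkD D hD hD2, hx D hD hD2⟩, ?_⟩
        rintro y ⟨hy1, hy2⟩ z ⟨hz1, hz2⟩
        refine ⟨hkbr y hy1 z hz1, ?_⟩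
        have : x * (y * z - z * y) - (y * z - z * y) * x =
            ((x * y - y * x) * z - z * (x * y - y * x)) +
            (y * (x * z - z * x) - (x * z - z * x) * y) := by noncomm_ring
        rw [this]
        exact 𝔨.add_mem (hkbr _ hy2 z hz1) (hkbr y hy1 _ hz2)
      exact fun y hy => (hle M hM hy).2
    intro x hx y hy
    have hxs := hQ.gen hx
    clear hx
    induction hxs using Submodule.span_induction with
    | mem x hx =>
      rcases hx with ⟨hx1, hx2⟩ | ⟨hx1, hx2⟩
      · exact step x (hnD x hx1 hx2) y hy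
      · exact hkbr x (hkX x hx1 hx2) y hy
    | zero => rw [zero_mul, mul_zero, sub_zero]; exact 𝔨.zero_mem
    | add a b _ _ ha hb =>
      have : (a + b) * y - y * (a + b) = (a * y - y * a) + (b * y - y * b) := by noncomm_ring
      rw [this]
      exact 𝔨.add_mem ha hb
    | smul c a _ ha =>
      rw [smul_mul_assoc, mul_smul_comm, ← smul_sub]
      exact 𝔨.smul_mem c ha
  have hinf := inf_orth hndl hQ hkq hid
  have hsup := sup_orth hQ hkq hinf
  have hcomm := comm_orth hQ hkq hid hinf
  have h0 : orth 𝔮 𝔨 = ⊥ := by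
    rw [eq_bot_iff]
    intro y hy
    rw [Submodule.mem_bot]
    exact eq_zero_of_comm hndl hQ hy.1 fun X hX hXX => hcomm X (hkX X hX hXX) y hy
  rw [h0, sup_bot_eq] at hsup
  exact hsup.ge

include hndl in
/-- The setting of the library `Y91.JP`. -/
theorem qp_setup [IsAlgClosed K] (hQ : QP ω 𝔮) : W548.Odd.Setup 𝔮 (adj ω hnd) where
  br := hQ.br
  st_mul := adj_mul hnd
  st_rk := adj_rk hnd
  skew := by
    intro y hy
    refine adj_unique hnd fun v w => ?_
    rw [LinearMap.neg_apply, map_neg]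
    exact eq_neg_of_add_eq_zero_left (hQ.sp y hy v w)
  nondeg := by
    intro y hy hyz
    have h2 : y ∈ 𝔮 ⊓ orth 𝔮 𝔮 := ⟨hy, hy, hyz⟩
    rw [inf_orth hndl hQ le_rfl hQ.br, Submodule.mem_bot] at h2
    exact h2
  gen := qp_gen hndl hQ
  cr := by
    intro M hM
    rcases hQ.irr M (fun X hX _ => hM X hX) with h1 | h1
    · exact ⟨0, fun y _ => by rw [zero_mul, mul_zero], fun w => M.zero_mem, fun w hw => by
        rw [h1, Submodule.mem_bot] at hw
        rw [hw, map_zero]⟩
    · exact ⟨1, fun y _ => by rw [one_mul, mul_one], fun w => by rw [h1]; trivial, fun w _ => rfl⟩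

theorem altF (halt : ∀ v, ω v v = 0) : Y91.JP.AltF (adj ω hnd) ω where
  adj := adj_spec hnd
  anti := by
    intro v w
    have h1 := halt (v + w)
    rw [map_add, map_add, LinearMap.add_apply, LinearMap.add_apply, halt, halt, zero_add,
      add_zero] at h1
    exact eq_neg_of_add_eq_zero_right h1
  nd := hnd

theorem trSt : Y91.JP.TrSt (adj ω hnd) := adj_trace hnd

/-- The commutant consists of scalars. -/
theorem qp_scal [IsAlgClosed K] (hQ : QP ω 𝔮) (hV : ∃ v : V, v ≠ 0) : Y91.JP.Scal 𝔮 := by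
  intro c hc
  have : Nontrivial V := ⟨⟨hV.choose, 0, hV.choose_spec⟩⟩
  obtain ⟨s, hs⟩ := Module.End.exists_eigenvalue c
  refine ⟨s, ?_⟩
  rcases hQ.irr (Module.End.eigenspace c s) (by
    intro X hX _ u hu
    rw [Module.End.mem_eigenspace_iff] at hu ⊢
    rw [← Module.End.mul_apply, hc X hX, Module.End.mul_apply, hu, map_smul]) with h1 | h1
  · exact absurd h1 hs
  · refine LinearMap.ext fun v => ?_
    have h3 : v ∈ Module.End.eigenspace c s := by rw [h1]; trivial
    exact Module.End.mem_eigenspace_iff.1 h3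

end

end Pool.Agent.Y131.MO
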