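import Mathlib
import Pool.Agent.Y131.MO.Setup
import Pool.Agent.W925.OT.Split

/-!
# Square-zero elements of small rank and normalizing operators with an eigenspace of odd dimension
-/

set_option linter.unusedSectionVars false

namespace Pool.Agent.Y131.MO

open Module LinearMap Pool.Agent.W548.Odd Pool.Agent.Y91.JP

variable {K : Type} [Field K] [CharZero K] {V : Type} [AddCommGroup V] [Module K V]
  [FiniteDimensional K V]

variable {G : Submodule K (End K V)} {st : End K V →ₗ[K] End K V} (h : Setup G st) (hs : Scal G)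

include h hs in
/-- The elements of `G` have trace zero. -/
theorem trace_zero (htr : TrSt st) {y : End K V} (hy : y ∈ G) : trace K V y = 0 := by
  have h1 := htr y
  rw [h.skew y hy, map_neg] at h1
  have h2 : (2 : K) * trace K V y = 0 := by linear_combination -h1
  exact (mul_eq_zero.1 h2).resolve_left two_ne_zero

include h hs in
/-- A functional that vanishes on the brackets of elements of the commutant of an ideal vanishes on
the commutant. -/
theorem func_zero {I : Submodule K (End K V)} {D : End K V} (hD : D ∈ G)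
    (hD2 : D * D = 1) (hI : IsIdl G I) (τ : End K V →ₗ[K] K)
    (hτ : ∀ b ∈ cen G I, ∀ b' ∈ cen G I, τ (b * b' - b' * b) = 0) : ∀ b ∈ cen G I, τ b = 0 := by
  have hcI := cen_idl h hI
  obtain ⟨a, ha, haz⟩ := exists_repr (idl_nondeg h hs hD hD2 hcI) τ
  have hbr0 : ∀ b ∈ cen G I, ∀ b' ∈ cen G I, trace K V (a * (b * b' - b' * b)) = 0 := by
    intro b hb b' hb'
    rw [← haz _ (hcI.br b hb.1 b' hb')]
    exact hτ b hb b' hb'
  have hab : ∀ b ∈ cen G I, a * b = b * a := by
    intro b hb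
    rw [← sub_eq_zero]
    refine idl_nondeg h hs hD hD2 hcI _ (hcI.br a ha.1 b hb) fun z hz => ?_
    have e1 := hbr0 b hb z hz
    have e2 : trace K V (b * a * z) = trace K V (a * (z * b)) := by
      rw [mul_assoc, LinearMap.trace_mul_comm, mul_assoc]
    rw [sub_mul, map_sub, e2, mul_assoc, ← map_sub, ← mul_sub, e1]
  have ha0 : a = 0 := zero_of_comm h hs hD hD2 hI ha.1 ha.2 hab
  intro b hb
  rw [haz b hb, ha0, zero_mul, map_zero]

include h hs in
/-- The commutant of an ideal, if it contains an involution, does not preserve a subspace of odd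
dimension. -/
theorem odd_false {I : Submodule K (End K V)} {D : End K V} (hD : D ∈ G)
    (hD2 : D * D = 1) (hI : IsIdl G I) (hDc : D ∈ cen G I) (E : Submodule K V)
    (hE : Odd (finrank K E)) (hst : ∀ b ∈ cen G I, ∀ v ∈ E, b v ∈ E) : False := by
  obtain ⟨p, hp⟩ := LinearMap.exists_leftInverse_of_injective E.subtype
    (LinearMap.ker_eq_bot.2 E.injective_subtype)
  let res : End K V →ₗ[K] End K E :=
    (LinearMap.lcomp K E E.subtype) ∘ₗ (LinearMap.llcomp K V V E p)
  have hres : ∀ b v, res b v = p (b v) := fun b v => rfl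
  have hres' : ∀ b ∈ cen G I, ∀ v : E, ((res b v : E) : V) = b v := by
    intro b hb v
    have h1 : p (⟨b v, hst b hb v v.2⟩ : E) = ⟨b v, hst b hb v v.2⟩ :=
      LinearMap.congr_fun hp ⟨b v, hst b hb v v.2⟩
    rw [hres]
    exact congrArg Subtype.val h1
  have hmul : ∀ b ∈ cen G I, ∀ b', res (b' * b) = res b' * res b := by
    intro b hb b'
    refine LinearMap.ext fun v => ?_
    rw [Module.End.mul_apply, hres, hres, Module.End.mul_apply, hres' b hb]
  have h1 : trace K E (res D) = 0 := by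
    refine func_zero h hs hD hD2 hI ((trace K E) ∘ₗ res) (fun b hb b' hb' => ?_) D hDc
    change trace K E (res (b * b' - b' * b)) = 0
    rw [map_sub, map_sub, hmul b' hb', hmul b hb, LinearMap.trace_mul_comm, sub_self]
  have h2 : res D * res D = 1 := by
    rw [← hmul D hDc, hD2]
    refine LinearMap.ext fun v => ?_
    rw [hres]
    exact LinearMap.congr_fun hp v
  have h3 : ((1 / 2 : K) • (1 + res D)) * ((1 / 2 : K) • (1 + res D)) =
      (1 / 2 : K) • (1 + res D) := by
    have h4 : (1 + res D) * (1 + res D) = (2 : K) • (1 + res D) := by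
      have : (1 + res D) * (1 + res D) = 1 + res D + res D + res D * res D := by noncomm_ring
      rw [this, h2, two_smul]
      abel
    rw [smul_mul_assoc, mul_smul_comm, h4, smul_smul, smul_smul]
    norm_num
  have h4 := Pool.Agent.Y91.JP.trace_idem h3
  rw [map_smul, map_add, h1, add_zero, LinearMap.trace_one, smul_eq_mul] at h4
  have h5 : ((finrank K E : ℕ) : K) = ((2 * rk ((1 / 2 : K) • (1 + res D)) : ℕ) : K) := by
    rw [Nat.cast_mul, ← h4]
    push_cast
    ring
  have h6 : finrank K E = 2 * rk ((1 / 2 : K) • (1 + res D)) := by exact_mod_cast h5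
  rw [h6] at hE
  exact absurd hE (by simp)

include h hs in
/-- If the dimension is not divisible by four, then the Lie algebra is generated as an ideal by
each of its involutions. -/
theorem le_gn_of_dim (htr : TrSt st) {D₀ : End K V} (hD₀ : D₀ ∈ G) (hD₀2 : D₀ * D₀ = 1)
    (h4 : ¬ 4 ∣ finrank K V) : G ≤ gn G D₀ := by
  obtain ⟨I, hIdef⟩ : ∃ I, I = gn G D₀ := ⟨_, rfl⟩
  rw [← hIdef]
  have hI : IsIdl G I := by rw [hIdef]; exact gn_idl h hD₀
  have hDI : D₀ ∈ I := by rw [hIdef]; exact mem_gn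
  by_contra hcon
  obtain ⟨D, hD, hD2, hDI'⟩ : ∃ D ∈ G, D * D = 1 ∧ D ∉ I := by
    by_contra hno
    push Not at hno
    exact hcon (h.gen I hno fun y hy z hz => hI.br y (hI.le hy) z hz)
  have hDc : D ∈ cen G I := (invol_dich h hs hI hD hD2).resolve_left hDI'
  have hcomm : D * D₀ = D₀ * D := hDc.2 D₀ hDI
  have t0 : trace K V D₀ = 0 := trace_zero h hs htr hD₀
  have t1 : trace K V D = 0 := trace_zero h hs htr hD
  have t2 : trace K V (D₀ * D) = 0 := by
    refine func_zero h hs hD hD2 hI ((trace K V) ∘ₗ (LinearMap.mulLeft K D₀))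
      (fun b hb b' hb' => ?_) D hDc
    change trace K V (D₀ * (b * b' - b' * b)) = 0
    have e1 : trace K V (D₀ * (b * b')) = trace K V (D₀ * (b' * b)) := by
      rw [← mul_assoc, LinearMap.trace_mul_comm, ← mul_assoc, hb'.2 D₀ hDI, mul_assoc]
    rw [mul_sub, map_sub, e1, sub_self]
  have h3 : ((1 / 4 : K) • ((1 + D₀) * (1 + D))) * ((1 / 4 : K) • ((1 + D₀) * (1 + D))) =
      (1 / 4 : K) • ((1 + D₀) * (1 + D)) := by
    have e1 : (1 + D₀) * (1 + D) * ((1 + D₀) * (1 + D)) = (4 : K) • ((1 + D₀) * (1 + D)) := by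
      have e2 : (1 + D) * (1 + D₀) = (1 + D₀) * (1 + D) := by
        have : (1 + D) * (1 + D₀) = 1 + D + D₀ + D * D₀ := by noncomm_ring
        rw [this, hcomm]
        noncomm_ring
      have e3 : (1 + D₀) * (1 + D₀) = (2 : K) • (1 + D₀) := by
        have : (1 + D₀) * (1 + D₀) = 1 + D₀ + D₀ + D₀ * D₀ := by noncomm_ring
        rw [this, hD₀2, two_smul]
        abel
      have e4 : (1 + D) * (1 + D) = (2 : K) • (1 + D) := by
        have : (1 + D) * (1 + D) = 1 + D + D + D * D := by noncomm_ring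
        rw [this, hD2, two_smul]
        abel
      calc (1 + D₀) * (1 + D) * ((1 + D₀) * (1 + D)) =
          (1 + D₀) * ((1 + D) * (1 + D₀)) * (1 + D) := by simp only [mul_assoc]
      _ = ((1 + D₀) * (1 + D₀)) * ((1 + D) * (1 + D)) := by rw [e2]; simp only [mul_assoc]
      _ = _ := by
        rw [e3, e4, smul_mul_assoc, mul_smul_comm, smul_smul]
        norm_num
    rw [smul_mul_assoc, mul_smul_comm, e1, smul_smul, smul_smul]
    norm_num
  have h5 := Pool.Agent.Y91.JP.trace_idem h3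
  have h6 : (1 + D₀) * (1 + D) = 1 + D₀ + D + D₀ * D := by noncomm_ring
  have h7 : trace K V ((1 + D₀) * (1 + D)) = (finrank K V : K) := by
    rw [h6, map_add, map_add, map_add, t0, t1, t2, LinearMap.trace_one]
    ring
  rw [map_smul, h7, smul_eq_mul] at h5
  have h8 : ((finrank K V : ℕ) : K) = ((4 * rk ((1 / 4 : K) • ((1 + D₀) * (1 + D))) : ℕ) : K) := by
    rw [Nat.cast_mul, ← h5]
    push_cast
    ring
  have h9 : finrank K V = 4 * rk ((1 / 4 : K) • ((1 + D₀) * (1 + D))) := by exact_mod_cast h8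
  exact h4 ⟨_, h9⟩

include h hs in
/-- If the Lie algebra contains a square-zero element `N` and is normalized by an invertible operator
`Φ` which acts on the range of `N` and on the cokernel of the kernel of `N` by scalars, and which has
an odd-dimensional eigenspace, then it is generated as an ideal by every involution which does not
commute with `N`. -/
theorem le_gn [IsAlgClosed K] (htr : TrSt st) {N : End K V} (hN : N ∈ G) (hN2 : N * N = 0)
    {D₀ : End K V} (hD₀ : D₀ ∈ G) (hD₀2 : D₀ * D₀ = 1) (hDN : D₀ * N ≠ N * D₀)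
    {Φ Ψ : End K V} (hΦΨ : Φ * Ψ = 1) (hΨΦ : Ψ * Φ = 1) (hconj : ∀ y ∈ G, Φ * y * Ψ ∈ G)
    (hconj' : ∀ y ∈ G, Ψ * y * Φ ∈ G) {c c' : K} (hc0 : c ≠ 0) (hc0' : c' ≠ 0)
    (hc : Φ * N = c • N) (hc' : N * Φ = c' • N) {μ : K}
    (hμ : Odd (finrank K (Module.End.eigenspace Φ μ))) : G ≤ gn G D₀ := by
  obtain ⟨I, hIdef⟩ : ∃ I, I = gn G D₀ := ⟨_, rfl⟩
  rw [← hIdef]
  have hI : IsIdl G I := by rw [hIdef]; exact gn_idl h hD₀
  have hDI : D₀ ∈ I := by rw [hIdef]; exact mem_gn
  -- `N` lies in the ideal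
  have hNI : N ∈ I := by
    obtain ⟨a, ha, b, hb, hab⟩ := idl_decomp h hs hD₀ hD₀2 hI hN
    have hsp := (Pool.Agent.W925.OT.Split.main K V I (cen G I)
      (fun x hx y hy => (hy.2 x hx).symm)
      (fun x hx => trace_zero h hs htr (hI.le hx)) (by
        intro W hW1 hW2
        by_cases h0 : W = ⊥
        · exact Or.inl h0
        right
        refine irr_top h hs (fun y hy w hw => ?_) h0
        obtain ⟨a, ha, b, hb, rfl⟩ := idl_decomp h hs hD₀ hD₀2 hI hy
        exact W.add_mem (hW1 a ha w hw) (hW2 b hb w hw))).2 a ha b hb (by rw [← hab]; exact hN2)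
    rcases hsp with h1 | h1
    · exfalso
      apply hDN
      rw [hab, h1, zero_add]
      exact (hb.2 D₀ hDI).symm
    · rw [hab, h1, add_zero]
      exact ha
  have hN0 : N ≠ 0 := by
    rintro rfl
    exact hDN (by rw [mul_zero, zero_mul])
  -- the conjugates of the ideal contain the ideal
  have hstab : ∀ (A B : End K V), A * B = 1 → B * A = 1 → (∀ y ∈ G, A * y * B ∈ G) →
      (∀ y ∈ G, B * y * A ∈ G) → (∃ t : K, t ≠ 0 ∧ B * N * A = t • N) →
      ∀ y ∈ I, B * y * A ∈ I := by
    intro A B hAB hBA hA hB ⟨t, ht, hN'⟩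
    let J : Submodule K (End K V) :=
      { carrier := {y | y ∈ G ∧ B * y * A ∈ I}
        zero_mem' := ⟨G.zero_mem, by
          rw [mul_zero, zero_mul]
          exact I.zero_mem⟩
        add_mem' := fun {a b} ha hb => ⟨G.add_mem ha.1 hb.1, by
          rw [mul_add, add_mul]
          exact I.add_mem ha.2 hb.2⟩
        smul_mem' := fun c a ha => ⟨G.smul_mem c ha.1, by
          rw [mul_smul_comm, smul_mul_assoc]
          exact I.smul_mem c ha.2⟩ }
    have hJ : IsIdl G J := by
      refine ⟨fun y hy => hy.1, ?_⟩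
      rintro y hy z ⟨hz1, hz2⟩
      refine ⟨h.br y hy z hz1, ?_⟩
      have h1 := hI.br _ (hB y hy) _ hz2
      have h2 : B * (y * z - z * y) * A = B * y * A * (B * z * A) - B * z * A * (B * y * A) := by
        have e1 : B * y * A * (B * z * A) = B * y * (A * B) * z * A := by simp only [mul_assoc]
        have e2 : B * z * A * (B * y * A) = B * z * (A * B) * y * A := by simp only [mul_assoc]
        rw [e1, e2, hAB, mul_one, mul_one]
        noncomm_ring
      rw [h2]
      exact h1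
    have hNJ : N ∈ J := ⟨hN, by rw [hN']; exact I.smul_mem t hNI⟩
    have hDJ : D₀ ∈ J := by
      rcases invol_dich h hs hJ hD₀ hD₀2 with h1 | h1
      · exact h1
      · exact absurd (h1.2 N hNJ) hDN
    have hle : I ≤ J := by
      rw [hIdef]
      exact gn_le hJ hDJ
    exact fun y hy => (hle hy).2
  have hΨN : Ψ * N = c⁻¹ • N := by
    have h1 : Ψ * (Φ * N) = N := by rw [← mul_assoc, hΨΦ, one_mul]
    rw [hc, mul_smul_comm] at h1
    rw [← h1, smul_smul, inv_mul_cancel₀ hc0, one_smul, h1]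
  have hNΨ : N * Ψ = c'⁻¹ • N := by
    have h1 : N * Φ * Ψ = N := by rw [mul_assoc, hΦΨ, mul_one]
    rw [hc', smul_mul_assoc] at h1
    rw [← h1, smul_smul, inv_mul_cancel₀ hc0', one_smul, h1]
  have hIΦ : ∀ y ∈ I, Φ * y * Ψ ∈ I := hstab Ψ Φ hΨΦ hΦΨ hconj' hconj
    ⟨c * c'⁻¹, mul_ne_zero hc0 (inv_ne_zero hc0'), by
      rw [hc, smul_mul_assoc, hNΨ, smul_smul]⟩
  have hIΨ : ∀ y ∈ I, Ψ * y * Φ ∈ I := hstab Φ Ψ hΦΨ hΨΦ hconj hconj'
    ⟨c⁻¹ * c', mul_ne_zero (inv_ne_zero hc0) hc0', by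
      rw [hΨN, smul_mul_assoc, hc', smul_smul]⟩
  -- the operator commutes with the commutant of the ideal
  have hcomm : ∀ b ∈ cen G I, Φ * b = b * Φ := by
    intro b hb
    have hb' : Φ * b * Ψ ∈ cen G I := by
      refine ⟨hconj b hb.1, fun z hz => ?_⟩
      have h1 := hb.2 _ (hIΨ z hz)
      have e1 : Φ * b * Ψ * z = Φ * (b * (Ψ * z * Φ)) * Ψ := by
        have : Φ * (b * (Ψ * z * Φ)) * Ψ = Φ * b * Ψ * z * (Φ * Ψ) := by simp only [mul_assoc]
        rw [this, hΦΨ, mul_one]
      have e2 : z * (Φ * b * Ψ) = Φ * (Ψ * z * Φ * b) * Ψ := by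
        have : Φ * (Ψ * z * Φ * b) * Ψ = (Φ * Ψ) * z * (Φ * b * Ψ) := by simp only [mul_assoc]
        rw [this, hΦΨ, one_mul]
      rw [e1, e2, h1]
    have hv : Φ * b * Ψ - b ∈ cen G I := Submodule.sub_mem _ hb' hb
    have hvN : (Φ * b * Ψ - b) * N = 0 := by
      rw [sub_mul, mul_assoc, hΨN, mul_smul_comm, mul_assoc, hb.2 N hNI, ← mul_assoc, hc,
        smul_mul_assoc, smul_smul, inv_mul_cancel₀ hc0, one_smul, sub_self]
    have h1 := prod_zero h hs hD₀ hD₀2 hI (u := N) (v := Φ * b * Ψ - b)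
      (fun z hz => hz.2 N hNI) (fun z hz => (hv.2 z hz).symm) hvN hN0
    have h2 : Φ * b * Ψ = b := sub_eq_zero.1 h1
    calc Φ * b = Φ * b * (Ψ * Φ) := by rw [hΨΦ, mul_one]
    _ = Φ * b * Ψ * Φ := by simp only [mul_assoc]
    _ = b * Φ := by rw [h2]
  -- the commutant is zero
  by_contra hcon
  obtain ⟨D, hD, hD2, hDI'⟩ : ∃ D ∈ G, D * D = 1 ∧ D ∉ I := by
    by_contra hno
    push Not at hno
    exact hcon (h.gen I hno fun y hy z hz => hI.br y (hI.le hy) z hz)
  have hDc : D ∈ cen G I := (invol_dich h hs hI hD hD2).resolve_left hDI'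
  have hcI := cen_idl h hI
  exact odd_false h hs hD hD2 hI hDc (Module.End.eigenspace Φ μ) hμ (by
    intro b hb v hv
    rw [Module.End.mem_eigenspace_iff] at hv ⊢
    rw [← Module.End.mul_apply, hcomm b hb, Module.End.mul_apply, hv, map_smul])

include h hs in
/-- An element of rank one. -/
theorem exists_rank_one [IsAlgClosed K] {ω : V →ₗ[K] V →ₗ[K] K} (hω : AltF st ω) (htr : TrSt st)
    {N : End K V} (hN : N ∈ G) (hN2 : N * N = 0) (hN0 : N ≠ 0)
    (h4 : 4 * rk N < finrank K V)
    (hgn : ∀ D₀ ∈ G, D₀ * D₀ = 1 → D₀ * N ≠ N * D₀ → G ≤ gn G D₀) : ∃ e ∈ G, rk e = 1 := by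
  obtain ⟨D₀, hD₀, hD₀2, hDN⟩ : ∃ D ∈ G, D * D = 1 ∧ D * N ≠ N * D := by
    by_contra hcon
    push Not at hcon
    have h1 := comm_of_invol h (x := N) hcon
    obtain ⟨s, hsN⟩ := hs N h1
    apply hN0
    have h2 : s * s = 0 ∨ Subsingleton V := by
      rcases subsingleton_or_nontrivial V with hV | hV
      · exact Or.inr hV
      · left
        rw [hsN, smul_mul_assoc, one_mul, smul_smul] at hN2
        exact (smul_eq_zero.1 hN2).resolve_right one_ne_zero
    rcases h2 with h2 | h2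
    · rw [hsN, mul_self_eq_zero.1 h2, zero_smul]
    · exact LinearMap.ext fun v => Subsingleton.elim _ _
  have h1 := hgn D₀ hD₀ hD₀2 hDN
  obtain ⟨D, hD, hDG', hD2, e, he, he0, her, hmin, f, hf, hefe, hfef⟩ :=
    exists_small_min h hD₀ hD₀2 hN hDN
  have h2 : G ≤ gn G D := by
    refine h1.trans (gn_le (gn_idl h hDG') ?_)
    rcases hD with rfl | rfl
    · exact mem_gn
    · have h3 := Submodule.neg_mem _ (mem_gn (G := G) (e := -D₀))
      rwa [neg_neg] at h3
  exact ⟨e, he.1, simple_case h hs hω htr hDG' hD2 h2 he hf hefe hfef he0 hmin (by omega)⟩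

end Pool.Agent.Y131.MO
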