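import Mathlib
import Pool.Agent.Y131.MO.Mult
import Pool.Agent.TH118.WC.Final

/-!
# The core property from a toric place of small rank with a Frobenius eigenvalue of odd multiplicity
-/

set_option linter.unusedSectionVars false

namespace Pool.Agent.Y131.MO

open Module Pool.Agent.H204R3.SP Pool.Agent.H204R3.GP Pool.Agent.W522.U Pool.Agent.W529.Ta
open Pool.Agent.W528.Odd
open Pool.Agent.W528.Tor (AltDual)

section

variable {K : Type} [Field K] [CharZero K] {V : Type} [AddCommGroup V] [Module K V]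
  [FiniteDimensional K V] {𝔥 : Submodule K (Module.End K V)}

theorem gens_conj {Φ Ψ : Module.End K V} (hΨΦ : Ψ * Φ = 1) (hΦΨ : Φ * Ψ = 1)
    (hconj : ∀ y ∈ 𝔥, Φ * y * Ψ ∈ 𝔥) :
    ∀ y ∈ Submodule.span K (gens 𝔥), Φ * y * Ψ ∈ Submodule.span K (gens 𝔥) := by
  intro y hy
  induction hy using Submodule.span_induction with
  | mem y hy =>
    apply Submodule.subset_span
    have h1 : Φ * y * Ψ * (Φ * y * Ψ) = Φ * (y * y) * Ψ := by
      have : Φ * y * Ψ * (Φ * y * Ψ) = Φ * y * (Ψ * Φ) * y * Ψ := by simp only [mul_assoc]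
      rw [this, hΨΦ, mul_one]
      simp only [mul_assoc]
    rcases hy with ⟨hy1, hy2⟩ | ⟨hy1, hy2⟩
    · left
      refine ⟨hconj y hy1, ?_⟩
      rw [h1, hy2, mul_zero, zero_mul]
    · right
      refine ⟨hconj y hy1, ?_⟩
      rw [h1, hy2, mul_smul_comm, mul_one, smul_mul_assoc, hΦΨ]
  | zero =>
    rw [mul_zero, zero_mul]
    exact Submodule.zero_mem _
  | add a b _ _ ha hb =>
    rw [mul_add, add_mul]
    exact Submodule.add_mem _ ha hb
  | smul c a _ ha =>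
    rw [mul_smul_comm, smul_mul_assoc]
    exact Submodule.smul_mem _ c ha

end

variable {K : Type} [Field K] [CharZero K] {X : Type} [AddCommGroup X] [Module K X]
  [FiniteDimensional K X] {Γ : Type} [Group Γ] {R : Representation K Γ X} {χ : Γ →* K}

/-- The core property. -/
theorem coreProp_mult [IsAlgClosed K] (ω : X →ₗ[K] X →ₗ[K] K)
    (hnd : ∀ u, (∀ v, ω u v = 0) → u = 0)
    (hωR : ∀ g u v, ω (R g u) (R g v) = χ g * ω u v) (hss : HasProj R)
    (hP : WeakHodgeGenerate R χ) {U : Submodule K X} (hU : SI R U)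
    {γ : Γ} (hγ : (R γ - 1) * (R γ - 1) = 0) (h0 : U.map (R γ - 1) ≠ ⊥)
    (h4 : 4 * finrank K (U.map (R γ - 1)) < finrank K U)
    (hF : ¬ 4 ∣ finrank K U ∨ ∃ (F : Γ) (c₀ μ : K),
      (∀ u ∈ U, R F ((R γ - 1) u) = c₀ • (R γ - 1) u) ∧
      ∀ n : ℕ, 1 ≤ n → (∀ u ∈ U, R (F ^ n) u ∈ U) →
        Odd (finrank K (U ⊓ Module.End.eigenspace (R (F ^ n)) (μ ^ n) : Submodule K X))) :
    CoreProp R χ U := by
  intro Δ hΔ hUΔ 𝔥 om halt hnd' hsim hbr hconj hsp hlie
  have hanti := alt_anti halt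
  have hnd'' : ∀ u, (∀ v, om u v = 0) → u = 0 := fun u hu => hnd' u fun v => by
    rw [hanti, hu, neg_zero]
  obtain ⟨x, hx, hx0⟩ := exists_ne h0
  have hχ : χ γ = 1 := unip_chi ω hnd hωR γ hγ hx0
  obtain ⟨N, hN, hNx⟩ := hlie _ (unip_lieT R χ γ hγ hχ)
  have hN2 : N * N = 0 := by
    have h3 := sq_res hNx 0 (by rw [hγ, zero_smul])
    rw [h3, zero_smul]
  have hN0 : N ≠ 0 := by
    rintro rfl
    apply hx0
    have h1 := hNx ⟨x, hx⟩
    exact h1.symm
  -- the Lie algebra of the quadratic elements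
  have hQ := qp_span hbr hsp (fun W hW => irr_weak ω hnd hωR hss hP hU Δ hΔ hUΔ W (by
      rintro Y ⟨x₀, hx₀, hxx, hYx⟩
      obtain ⟨Y', hY', hYx'⟩ := hlie x₀ hx₀
      have h1 : Y = Y' := LinearMap.ext fun u => Subtype.ext (by rw [hYx, hYx'])
      exact hW Y (h1 ▸ hY') (sq_res hYx _ hxx)))
  obtain ⟨𝔮, hq⟩ : ∃ 𝔮, 𝔮 = Submodule.span K (gens 𝔥) := ⟨_, rfl⟩
  rw [← hq] at hQ
  have hNq : N ∈ 𝔮 := by rw [hq]; exact Submodule.subset_span (Or.inl ⟨hN, hN2⟩)
  have hS := qp_setup hnd' hnd'' hQ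
  have hU0 : ∃ v : U, v ≠ 0 := by
    refine ⟨⟨x, hx⟩, fun h => ?_⟩
    apply hx0
    have h1 : x = 0 := congrArg Subtype.val h
    rw [h1, map_zero]
  have hs := qp_scal hQ hU0
  have hrk : 4 * W548.Odd.rk N < finrank K U := by
    have h1 := rk_res hNx
    change 4 * finrank K (LinearMap.range N) < _
    unfold W528.Odd.rk at h1
    rw [h1]
    exact h4
  obtain ⟨e, he, hr⟩ : ∃ e ∈ 𝔮, W548.Odd.rk e = 1 := by
    rcases hF with hdim | ⟨F, c₀, μ, hFN, hμ⟩
    · exact exists_rank_one hS hs (altF hnd' halt) (trSt hnd') hNq hN2 hN0 hrk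
        fun D₀ hD₀ hD₀2 _ => le_gn_of_dim hS hs (trSt hnd') hD₀ hD₀2 hdim
    -- a power of the Frobenius element in the subgroup
    obtain ⟨n, hn, hFn⟩ : ∃ n : ℕ, 1 ≤ n ∧ F ^ n ∈ Δ := by
      obtain ⟨n, hn, -, h1⟩ := Subgroup.exists_pow_mem_of_relIndex_ne_zero (H := Δ) (K := ⊤)
        (by rw [Subgroup.relIndex_top_right]; exact hΔ.index_ne_zero) (a := F) trivial
      exact ⟨n, hn, h1.1⟩
    let s : Δ := ⟨F ^ n, hFn⟩
    obtain ⟨Φ, hΦ⟩ : ∃ Φ, Φ = resR R Δ U hUΔ s := ⟨_, rfl⟩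
    obtain ⟨Ψ, hΨ⟩ : ∃ Ψ, Ψ = resR R Δ U hUΔ s⁻¹ := ⟨_, rfl⟩
    have hΦΨ : Φ * Ψ = 1 := by rw [hΦ, hΨ, ← map_mul, mul_inv_cancel, map_one]
    have hΨΦ : Ψ * Φ = 1 := by rw [hΦ, hΨ, ← map_mul, inv_mul_cancel, map_one]
    have hχ0 : χ F ^ n ≠ 0 := by
      rw [← map_pow]
      intro h
      have h1 : χ (F ^ n * (F ^ n)⁻¹) = 0 := by rw [map_mul, h, zero_mul]
      rw [mul_inv_cancel, map_one] at h1
      exact one_ne_zero h1
    have hc0 : c₀ ^ n ≠ 0 := by
      refine pow_ne_zero _ fun h => hx0 ?_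
      have h1 := hFN x hx
      rw [h, zero_smul] at h1
      have h2 : R (F⁻¹ * F) ((R γ - 1) x) = 0 := by
        rw [map_mul, Module.End.mul_apply, h1, map_zero]
      rw [inv_mul_cancel, map_one, Module.End.one_apply] at h2
      exact h2
    have hFN' : ∀ m : ℕ, ∀ u ∈ U, R (F ^ m) ((R γ - 1) u) = c₀ ^ m • (R γ - 1) u := by
      intro m
      induction m with
      | zero => intro u _; simp
      | succ m ih =>
        intro u hu
        rw [pow_succ, map_mul, Module.End.mul_apply, hFN u hu, map_smul, ih u hu, smul_smul,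
          pow_succ, mul_comm]
    have hc : Φ * N = c₀ ^ n • N := by
      refine LinearMap.ext fun u => Subtype.ext ?_
      rw [hΦ]
      change R (F ^ n) ((N u : U) : X) = c₀ ^ n • ((N u : U) : X)
      rw [hNx, hFN' n _ u.2]
    have hsimΦ : ∀ u v, om (Φ u) (Φ v) = χ F ^ n * om u v := by
      intro u v
      rw [hΦ, hsim]
      have h1 : χ (s : Γ) = χ F ^ n := by
        change χ (F ^ n) = _
        rw [map_pow]
      rw [h1]
    have hc' : N * Φ = ((c₀ ^ n)⁻¹ * χ F ^ n) • N := by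
      refine LinearMap.ext fun u => ?_
      rw [← sub_eq_zero]
      refine hnd'' _ fun v => ?_
      rw [map_sub, LinearMap.sub_apply, Module.End.mul_apply, LinearMap.smul_apply, map_smul,
        LinearMap.smul_apply, smul_eq_mul]
      have h1 := hsp N hN (Φ u) v
      have h2 := hsp N hN u v
      have h3 := hsimΦ u (N v)
      rw [← Module.End.mul_apply, hc, LinearMap.smul_apply, map_smul, smul_eq_mul] at h3
      have h4 : om (Φ u) (N v) = (c₀ ^ n)⁻¹ * χ F ^ n * om u (N v) := by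
        rw [mul_assoc, ← h3, ← mul_assoc, inv_mul_cancel₀ hc0, one_mul]
      linear_combination h1 - ((c₀ ^ n)⁻¹ * χ F ^ n) * h2 - h4
    have hst : ∀ u ∈ U, R (F ^ n) u ∈ U := fun u hu => hUΔ _ hFn u hu
    have hμ' : Odd (finrank K (Module.End.eigenspace Φ (μ ^ n))) := by
      have h0' := hμ n hn hst
      have h1 : (Module.End.eigenspace Φ (μ ^ n)).map U.subtype =
          U ⊓ Module.End.eigenspace (R (F ^ n)) (μ ^ n) := by
        apply le_antisymm
        · rintro _ ⟨u, hu, rfl⟩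
          rw [SetLike.mem_coe, Module.End.mem_eigenspace_iff] at hu
          refine ⟨u.2, ?_⟩
          rw [SetLike.mem_coe, Module.End.mem_eigenspace_iff]
          have h2 := congrArg Subtype.val hu
          rw [hΦ] at h2
          exact h2
        · rintro u ⟨hu1, hu2⟩
          refine ⟨⟨u, hu1⟩, ?_, rfl⟩
          rw [SetLike.mem_coe, Module.End.mem_eigenspace_iff] at hu2 ⊢
          rw [hΦ]
          exact Subtype.ext hu2
      rw [← h1, Submodule.finrank_map_subtype_eq U _] at h0'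
      exact h0'
    have hcj : ∀ y ∈ 𝔮, Φ * y * Ψ ∈ 𝔮 := by
      rw [hq]
      refine gens_conj hΨΦ hΦΨ fun y hy => ?_
      rw [hΦ, hΨ]
      exact hconj s y hy
    have hcj' : ∀ y ∈ 𝔮, Ψ * y * Φ ∈ 𝔮 := by
      rw [hq]
      refine gens_conj hΦΨ hΨΦ fun y hy => ?_
      rw [hΦ, hΨ]
      have h1 := hconj s⁻¹ y hy
      rwa [inv_inv] at h1
    exact exists_rank_one hS hs (altF hnd' halt) (trSt hnd') hNq hN2 hN0 hrk
      fun D₀ hD₀ hD₀2 hDN => le_gn hS hs (trSt hnd') hNq hN2 hD₀ hD₀2 hDN hΦΨ hΨΦ hcj hcj' hc0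
        (mul_ne_zero (inv_ne_zero hc0) hχ0) hc hc' hμ'
  have he' : e ∈ 𝔥 := gens_le (by rw [← hq]; exact he)
  exact all_of_rank_one (resR R Δ U hUΔ) (χ.comp Δ.subtype) (sIrr_res hU Δ hΔ hUΔ) hbr hconj om
    halt hnd' hsim hsp he' hr

end Pool.Agent.Y131.MO
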